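import Mathlib

/-!
Hypersurfaces of constant mean curvature, horoballs and geodesic spheres in the ball model of complex
hyperbolic space: the definitions. In the theorem `E` is `ℂⁿ`, with its real and its complex inner
product.
-/

set_option autoImplicit false

namespace Pool.Agent.Helper65.HBT

section real

variable {E : Type} [NormedAddCommGroup E] [InnerProductSpace ℝ E] [FiniteDimensional ℝ E]

/-- Riemannian metrics: the scalar product at `z` is `(u, v) ↦ ⟪g z u, v⟫`. -/
abbrev MetricField (E : Type) [NormedAddCommGroup E] [InnerProductSpace ℝ E] : Type := E → E →L[ℝ] E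

/-- The Euclidean divergence of a vector field. -/
noncomputable def divg (v : E → E) (z : E) : ℝ :=
  LinearMap.trace ℝ E (fderiv ℝ v z : E →ₗ[ℝ] E)

/-- The mean curvature at `z` of the level hypersurface of `ρ` through `z`, for the metric `g`: the trace
of the shape operator, as the divergence of the unit normal field `∇ρ / |∇ρ|`. -/
noncomputable def meanCurv (g : MetricField E) (ρ : E → ℝ) (z : E) : ℝ :=
  (√(LinearMap.det (g z : E →ₗ[ℝ] E)))⁻¹ *
    divg (fun y => (√(LinearMap.det (g y : E →ₗ[ℝ] E)) /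
      √(inner ℝ (gradient ρ y) ((g y).inverse (gradient ρ y)))) •
        (g y).inverse (gradient ρ y)) z

/-- The set `ρ < 0` is a relatively compact domain of the unit ball, and its boundary `ρ = 0` is a
connected regular hypersurface of class `C³` with constant mean curvature `H` for the metric `g`. -/
structure CMC (g : MetricField E) (ρ : E → ℝ) (H : ℝ) : Prop where
  smooth : ContDiffOn ℝ 3 ρ (Metric.ball 0 1)
  bounded : ∃ R : ℝ, R < 1 ∧ ∀ z ∈ Metric.ball (0 : E) 1, ρ z ≤ 0 → ‖z‖ ≤ R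
  nonempty : ∃ z ∈ Metric.ball (0 : E) 1, ρ z < 0
  connected : IsPreconnected {z ∈ Metric.ball (0 : E) 1 | ρ z = 0}
  regular : ∀ z ∈ Metric.ball (0 : E) 1, ρ z = 0 → gradient ρ z ≠ 0
  curvature : ∀ z ∈ Metric.ball (0 : E) 1, ρ z = 0 → meanCurv g ρ z = H

/-- The unit normal `∇ρ / |∇ρ|` of the level hypersurfaces of `ρ` for the metric `g`. -/
noncomputable def unor (g : MetricField E) (ρ : E → ℝ) (z : E) : E :=
  (√(inner ℝ (gradient ρ z) ((g z).inverse (gradient ρ z))))⁻¹ • (g z).inverse (gradient ρ z)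

end real

section complex

variable {E : Type} [NormedAddCommGroup E] [InnerProductSpace ℂ E]

/-- `p` lies in the closed horoball with centre `b` (`|b| = 1`) whose boundary contains `z`. -/
def HoroC (b z p : E) : Prop :=
  ‖1 - inner ℂ p b‖ ^ 2 * (1 - ‖z‖ ^ 2) ≤ ‖1 - inner ℂ z b‖ ^ 2 * (1 - ‖p‖ ^ 2)

/-- `cosh²` of the distance of `a` and `b`. -/
noncomputable def coshSq (a b : E) : ℝ :=
  ‖1 - inner ℂ a b‖ ^ 2 / ((1 - ‖a‖ ^ 2) * (1 - ‖b‖ ^ 2))

/-- `ρ = 0` is the geodesic sphere with centre `c` and radius `R`, `coth R = lam`, and `ρ < 0` is its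
ball; the mean curvature of this sphere is `(2 n - 1) lam + lam⁻¹ = H`. -/
def IsSphere (n : ℕ) (ρ : E → ℝ) (H : ℝ) : Prop :=
  ∃ (c : E) (lam : ℝ), ‖c‖ < 1 ∧ 1 < lam ∧ H = (2 * n - 1) * lam + lam⁻¹ ∧
    ∀ z ∈ Metric.ball (0 : E) 1,
      (ρ z < 0 ↔ coshSq c z * (1 - lam⁻¹ ^ 2) < 1) ∧
      (ρ z = 0 ↔ coshSq c z * (1 - lam⁻¹ ^ 2) = 1)

variable [InnerProductSpace ℝ E]

/-- `g` is the Bergman metric of the unit ball (complex hyperbolic space, curvature between `-4` and
`-1`): `v ↦ v / (1 - |z|²) + ⟨z, v⟩ z / (1 - |z|²)²`, with the complex inner product. -/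
def IsBergman (g : MetricField E) : Prop :=
  ∀ z v, g z v = (1 - ‖z‖ ^ 2)⁻¹ • v + ((1 - ‖z‖ ^ 2) ^ 2)⁻¹ • (inner ℂ z v • z)

variable [FiniteDimensional ℝ E]

/-- The end point on the unit sphere of the inner normal geodesic ray that starts at the point `z` of
the level hypersurface of `ρ` through `z`. -/
noncomputable def endC (g : MetricField E) (ρ : E → ℝ) (z : E) : E :=
  z - (1 - inner ℂ z (unor g ρ z) / (1 - ‖z‖ ^ 2))⁻¹ • unor g ρ z

/-- The point `p` of the ball lies in all the closed horoballs which touch the hypersurface `ρ = 0` from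
the inner side. -/
def InInnerHoroballs (g : MetricField E) (ρ : E → ℝ) (p : E) : Prop :=
  ‖p‖ < 1 ∧ ∀ z ∈ Metric.ball (0 : E) 1, ρ z = 0 → HoroC (endC g ρ z) z p

end complex

end Pool.Agent.Helper65.HBT
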