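import Pool.Agent.Helper65.HB.CHn
import Pool.Agent.Helper65.HBT.Defs

set_option autoImplicit false

namespace Pool.Agent.Helper65.HBT

theorem main (n : ℕ) (hn : 2 ≤ n) (g : MetricField (EuclideanSpace ℂ (Fin n))) (hg : IsBergman g)
    (ρ : EuclideanSpace ℂ (Fin n) → ℝ) (H : ℝ) (hc : CMC g ρ H) (p : EuclideanSpace ℂ (Fin n))
    (hp : InInnerHoroballs g ρ p) : IsSphere n ρ H := by
  have hgb : g = Pool.Agent.Helper41.ALX.bergman n := by
    funext z
    ext1 v
    exact hg z v
  subst hgb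
  have hc' : Pool.Agent.Helper75.ROT.CMC (Pool.Agent.Helper41.ALX.bergman n) ρ H :=
    ⟨hc.smooth, hc.bounded, hc.nonempty, hc.connected, hc.regular, hc.curvature⟩
  exact Pool.Agent.Helper65.HB.final_all hn hc' hp.1 hp.2

end Pool.Agent.Helper65.HBT
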