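import Mathlib

/-!
Hypersurfaces of constant mean curvature, horoballs and geodesic spheres in the ball model of
quaternionic hyperbolic space: the definitions. In the theorem `E` is `ℍⁿ⁺¹` with its real inner
product, and `co z` are the coordinates of `z`.
-/

set_option autoImplicit false

open Quaternion

namespace Pool.Agent.Helper65.HBQ

/-- The hermitian product `∑ star a_j b_j` on `ℍⁿ⁺¹`. -/
noncomputable def hm {n : ℕ} (a b : Fin (n + 1) → ℍ[ℝ]) : ℍ[ℝ] := ∑ j, star (a j) * b j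

section

variable {E : Type} [NormedAddCommGroup E] [InnerProductSpace ℝ E]

/-- Riemannian metrics: the scalar product at `z` is `(u, v) ↦ ⟪g z u, v⟫`. -/
abbrev MetricField (E : Type) [NormedAddCommGroup E] [InnerProductSpace ℝ E] : Type := E → E →L[ℝ] E

/-- `g` is the metric of quaternionic hyperbolic space (curvature between `-4` and `-1`) on the unit
ball: `v ↦ v / (1 - |z|²) + z ⟨z, v⟩ / (1 - |z|²)²`, with the hermitian product. -/
def IsBergman {n : ℕ} (co : E → Fin (n + 1) → ℍ[ℝ]) (g : MetricField E) : Prop :=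
  ∀ z v i, co (g z v) i =
    (1 - ‖z‖ ^ 2)⁻¹ • co v i + ((1 - ‖z‖ ^ 2) ^ 2)⁻¹ • (co z i * hm (co z) (co v))

variable [FiniteDimensional ℝ E]

/-- The Euclidean divergence of a vector field. -/
noncomputable def divg (v : E → E) (z : E) : ℝ :=
  LinearMap.trace ℝ E (fderiv ℝ v z : E →ₗ[ℝ] E)

/-- The mean curvature at `z` of the level hypersurface of `ρ` through `z`, for the metric `g`: the trace
of the shape operator, as the divergence of the unit normal field `∇ρ / |∇ρ|`. -/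
noncomputable def meanCurv (g : MetricField E) (ρ : E → ℝ) (z : E) : ℝ :=
  (√(LinearMap.det (g z : E →ₗ[ℝ] E)))⁻¹ *
    divg (fun y => (√(LinearMap.det (g y : E →ₗ[ℝ] E)) /
      √(inner ℝ (gradient ρ y) ((g y).inverse (gradient ρ y)))) •
        (g y).inverse (gradient ρ y)) z

/-- The set `ρ < 0` is a relatively compact domain of the unit ball, and its boundary `ρ = 0` is a
connected regular hypersurface of class `C³` with constant mean curvature `H` for the metric `g`. -/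
structure CMC (g : MetricField E) (ρ : E → ℝ) (H : ℝ) : Prop where
  smooth : ContDiffOn ℝ 3 ρ (Metric.ball 0 1)
  bounded : ∃ R : ℝ, R < 1 ∧ ∀ z ∈ Metric.ball (0 : E) 1, ρ z ≤ 0 → ‖z‖ ≤ R
  nonempty : ∃ z ∈ Metric.ball (0 : E) 1, ρ z < 0
  connected : IsPreconnected {z ∈ Metric.ball (0 : E) 1 | ρ z = 0}
  regular : ∀ z ∈ Metric.ball (0 : E) 1, ρ z = 0 → gradient ρ z ≠ 0
  curvature : ∀ z ∈ Metric.ball (0 : E) 1, ρ z = 0 → meanCurv g ρ z = H

/-- The unit normal `∇ρ / |∇ρ|` of the level hypersurfaces of `ρ` for the metric `g`. -/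
noncomputable def unor (g : MetricField E) (ρ : E → ℝ) (z : E) : E :=
  (√(inner ℝ (gradient ρ z) ((g z).inverse (gradient ρ z))))⁻¹ • (g z).inverse (gradient ρ z)

/-- The coordinates of the end point on the unit sphere of the inner normal geodesic ray that starts at
the point `z` of the level hypersurface of `ρ` through `z`. -/
noncomputable def endH {n : ℕ} (co : E → Fin (n + 1) → ℍ[ℝ]) (g : MetricField E) (ρ : E → ℝ) (z : E) :
    Fin (n + 1) → ℍ[ℝ] :=
  fun i => co z i - co (unor g ρ z) i * (1 - (1 - ‖z‖ ^ 2)⁻¹ • hm (co z) (co (unor g ρ z)))⁻¹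

/-- The point `p` of the ball lies in all the closed horoballs which touch the hypersurface `ρ = 0` from
the inner side: `|1 - ⟨p, b⟩|² / (1 - |p|²) ≤ |1 - ⟨z, b⟩|² / (1 - |z|²)` for each `z` of the hypersurface,
where `b` is the end point of the inner normal ray at `z`. -/
def InInnerHoroballs {n : ℕ} (co : E → Fin (n + 1) → ℍ[ℝ]) (g : MetricField E) (ρ : E → ℝ) (p : E) :
    Prop :=
  ‖p‖ < 1 ∧ ∀ z ∈ Metric.ball (0 : E) 1, ρ z = 0 →
    ‖1 - hm (co p) (endH co g ρ z)‖ ^ 2 * (1 - ‖z‖ ^ 2) ≤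
      ‖1 - hm (co z) (endH co g ρ z)‖ ^ 2 * (1 - ‖p‖ ^ 2)

/-- `ρ = 0` is a geodesic sphere with centre `c`, and `ρ < 0` is its ball;
`|1 - ⟨c, z⟩|² / ((1 - |z|²) (1 - |c|²))` is `cosh²` of the distance of `z` and `c`. -/
def IsSphere {n : ℕ} (co : E → Fin (n + 1) → ℍ[ℝ]) (ρ : E → ℝ) : Prop :=
  ∃ (c : E) (R : ℝ), ‖c‖ < 1 ∧ 1 < R ∧ ∀ z ∈ Metric.ball (0 : E) 1,
    (ρ z < 0 ↔ ‖1 - hm (co c) (co z)‖ ^ 2 < R * (1 - ‖z‖ ^ 2) * (1 - ‖c‖ ^ 2)) ∧
    (ρ z = 0 ↔ ‖1 - hm (co c) (co z)‖ ^ 2 = R * (1 - ‖z‖ ^ 2) * (1 - ‖c‖ ^ 2))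

end

end Pool.Agent.Helper65.HBQ
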