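import Pool.Agent.Helper75.ROT.ExH
import Pool.Agent.Helper65.HBT.QDefs

set_option autoImplicit false

open Quaternion

namespace Pool.Agent.Helper65.HBQ

open Pool.Agent.Helper75.ROT (HV RH hH IsPH PH)

theorem isPH_PH (n : ℕ) : IsPH (PH n) := by
  intro z v i
  rw [Pool.Agent.Helper75.ROT.PH_apply]
  rfl

theorem re_hH {n : ℕ} (z v : HV n) : (hH n z v).re = inner ℝ z v := by
  have h1 : RH n 1 z = z := by
    ext i : 1
    rw [Pool.Agent.Helper75.ROT.RH_apply, mul_one]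
  have h2 := Pool.Agent.Helper75.ROT.inner_RH (1 : ℍ[ℝ]) z v
  rw [h1] at h2
  rw [h2, Pool.Agent.Helper75.ROT.inner_H]
  simp

theorem eq_ball {n : ℕ} {g : MetricField (PiLp 2 fun _ : Fin (n + 1) => ℍ[ℝ])}
    (hg : IsBergman (fun z => z.ofLp) g) : g = Pool.Agent.Helper41.ALX.ballMetric (PH n) := by
  funext z
  ext v i : 2
  have e1 : hm z.ofLp v.ofLp = hH n z v := rfl
  have e2 : PH n z v i = (‖z‖ ^ 2)⁻¹ • (z i * (hH n z v).im) := isPH_PH n z v i
  have e3 : Pool.Agent.Helper41.ALX.ballMetric (PH n) z v =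
      (1 - ‖z‖ ^ 2)⁻¹ • v + ((1 - ‖z‖ ^ 2) ^ 2)⁻¹ • (inner ℝ z v • z + ‖z‖ ^ 2 • PH n z v) := rfl
  have e4 : z i * hH n z v = inner ℝ z v • z i + z i * (hH n z v).im := by
    conv_lhs => rw [← Quaternion.re_add_im (hH n z v)]
    rw [mul_add, re_hH, Quaternion.mul_coe_eq_smul]
  have e5 : ‖z‖ ^ 2 • PH n z v i = z i * (hH n z v).im := by
    rw [e2]
    by_cases h0 : z = 0
    · rw [h0]
      simp
    · have h4 : ‖z‖ ^ 2 ≠ 0 := by
        have := norm_pos_iff.2 h0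
        positivity
      rw [smul_smul, mul_inv_cancel₀ h4, one_smul]
  have h := hg z v i
  rw [e1, e4] at h
  rw [e3]
  refine h.trans ?_
  rw [← e5]
  rfl

end Pool.Agent.Helper65.HBQ
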