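import Pool.Agent.Helper77.JH.G1
import Pool.Agent.Helper65.HBT.QBr

set_option autoImplicit false

open Quaternion

namespace Pool.Agent.Helper65.HBQ

theorem main (n : ℕ) (hn : 1 ≤ n) (g : MetricField (PiLp 2 fun _ : Fin (n + 1) => ℍ[ℝ]))
    (hg : IsBergman (fun z => z.ofLp) g) (ρ : (PiLp 2 fun _ : Fin (n + 1) => ℍ[ℝ]) → ℝ) (H : ℝ)
    (hc : CMC g ρ H) (p : PiLp 2 fun _ : Fin (n + 1) => ℍ[ℝ])
    (hp : InInnerHoroballs (fun z => z.ofLp) g ρ p) : IsSphere (fun z => z.ofLp) ρ := by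
  obtain rfl := eq_ball hg
  have hc' : Pool.Agent.Helper75.ROT.CMC
      (Pool.Agent.Helper41.ALX.ballMetric (Pool.Agent.Helper75.ROT.PH n)) ρ H :=
    ⟨hc.smooth, hc.bounded, hc.nonempty, hc.connected, hc.regular, hc.curvature⟩
  exact Pool.Agent.Helper77.JH.finalH hn (isPH_PH n) hc' hp.1 hp.2

end Pool.Agent.Helper65.HBQ
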